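import Pool.Agent.Lead.LSS

namespace Pool.Agent.Results.MP_e1e5e2_ag.Counterexample

open Pool.Agent.Lead.LSS

theorem result (K : Type) [Field K] :
    ∃ (d n : ℕ) (G : SimpleGraph (Fin n)), 1 ≤ d ∧
      ∃ P ∈ associatedPrimes (MvPolynomial (Fin d × Fin n) K)
        (MvPolynomial (Fin d × Fin n) K ⧸ lss K d n G), P ∉ (lss K d n G).minimalPrimes :=
  ⟨3, 7, G0, by norm_num, main⟩

end Pool.Agent.Results.MP_e1e5e2_ag.Counterexample
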